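import Mathlib

/-! Job 172 for helper13: a bounded complex algebraic set is finite. -/

set_option autoImplicit false

namespace Pool.Agent.L5helper13.KM

open MvPolynomial Finset

/-- An inverse of `X s - λ` on the zero set, if `λ` is not a value of the coordinate `s`. -/
private theorem exists_inv {σ : Type} [Finite σ] (J : Set (MvPolynomial σ ℂ)) (s : σ) (l : ℂ)
    (h : ∀ c : σ → ℂ, (∀ p ∈ J, eval c p = 0) → c s ≠ l) :
    ∃ u : MvPolynomial σ ℂ, ∀ c : σ → ℂ, (∀ p ∈ J, eval c p = 0) → eval c u * (c s - l) = 1 := by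
  let I : Ideal (MvPolynomial σ ℂ) := Ideal.span J ⊔ Ideal.span {X s - C l}
  have hI : I = ⊤ := by
    by_contra hne
    obtain ⟨M, hM, hIM⟩ := Ideal.exists_le_maximal I hne
    obtain ⟨x, hx⟩ := isMaximal_iff_eq_vanishingIdeal_singleton.1 hM
    have hz : ∀ p ∈ I, eval x p = 0 := by
      intro p hp
      have h1 := hIM hp
      rw [hx, mem_vanishingIdeal_singleton_iff] at h1
      rwa [← MvPolynomial.coe_aeval_eq_eval] 
    have h2 : ∀ p ∈ J, eval x p = 0 := fun p hp =>
      hz p (Ideal.mem_sup_left (Ideal.subset_span hp))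
    have h3 := hz (X s - C l) (Ideal.mem_sup_right (Ideal.subset_span rfl))
    rw [map_sub, eval_X, eval_C, sub_eq_zero] at h3
    exact h x h2 h3
  have h1 : (1 : MvPolynomial σ ℂ) ∈ I := hI ▸ Submodule.mem_top
  obtain ⟨a, ha, b, hb, hab⟩ := Submodule.mem_sup.1 h1
  obtain ⟨u, hu⟩ := Ideal.mem_span_singleton'.1 hb
  refine ⟨u, fun c hc => ?_⟩
  have hle : Ideal.span J ≤ RingHom.ker (eval c) := by
    rw [Ideal.span_le]
    intro p hp
    exact hc p hp
  have h2 : eval c a = 0 := hle ha
  have h3 := congrArg (eval c) hab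
  rw [← hu, map_add, h2, map_mul, map_sub, eval_X, eval_C, map_one, zero_add] at h3
  exact h3

/-- KM1 -/
theorem finite_of_bdd {σ : Type} [Finite σ] (J : Set (MvPolynomial σ ℂ)) (B : ℝ)
    (hB : ∀ c : σ → ℂ, (∀ p ∈ J, eval c p = 0) → ∀ s, ‖c s‖ ≤ B) :
    {c : σ → ℂ | ∀ p ∈ J, eval c p = 0}.Finite := by
  classical
  have key : ∀ s : σ, ∃ R : Finset ℂ, ∀ c : σ → ℂ, (∀ p ∈ J, eval c p = 0) → c s ∈ R := by
    intro s
    have hu : ∀ t : Set.Ioi (max B 0), ∃ u : MvPolynomial σ ℂ, ∀ c : σ → ℂ,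
        (∀ p ∈ J, eval c p = 0) → eval c u * (c s - ((t : ℝ) : ℂ)) = 1 := by
      intro t
      apply exists_inv
      intro c hc h
      have h1 := hB c hc s
      rw [h, Complex.norm_real, Real.norm_eq_abs] at h1
      have h2 : max B 0 < (t : ℝ) := t.2
      have h3 := le_abs_self (t : ℝ)
      have h4 := le_max_left B 0
      linarith
    choose u hu using hu
    have hdep : ¬ LinearIndependent ℂ u := by
      intro hli
      have h1 := hli.cardinal_le_rank
      rw [MvPolynomial.rank_eq, Cardinal.mk_Ioi_real] at h1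
      have h2 : Cardinal.mk (σ →₀ ℕ) ≤ Cardinal.aleph0 := Cardinal.mk_le_aleph0
      exact absurd (h1.trans h2) (not_le.2 Cardinal.aleph0_lt_continuum)
    obtain ⟨S, g, hg, i0, hi0, hgi0⟩ := not_linearIndependent_iff.1 hdep
    let P : Polynomial ℂ := ∑ i ∈ S, Polynomial.C (g i) *
      ∏ j ∈ S.erase i, (Polynomial.X - Polynomial.C (((j : ℝ) : ℂ)))
    have hP : P ≠ 0 := by
      intro h0
      have h1 : P.eval (((i0 : ℝ) : ℂ)) = 0 := by rw [h0, Polynomial.eval_zero]
      have h2 : P.eval (((i0 : ℝ) : ℂ)) =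
          g i0 * ∏ j ∈ S.erase i0, ((((i0 : ℝ) : ℂ)) - (((j : ℝ) : ℂ))) := by
        show Polynomial.eval _ (∑ i ∈ S, Polynomial.C (g i) *
          ∏ j ∈ S.erase i, (Polynomial.X - Polynomial.C (((j : ℝ) : ℂ)))) = _
        rw [Polynomial.eval_finsetSum, Finset.sum_eq_single i0]
        · rw [Polynomial.eval_mul, Polynomial.eval_C, Polynomial.eval_prod]
          simp only [Polynomial.eval_sub, Polynomial.eval_X, Polynomial.eval_C]
        · intro i hi hne
          rw [Polynomial.eval_mul, Polynomial.eval_prod,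
            Finset.prod_eq_zero (Finset.mem_erase.2 ⟨hne.symm, hi0⟩), mul_zero]
          simp
        · intro h; exact absurd hi0 h
      rw [h2] at h1
      rcases mul_eq_zero.1 h1 with h3 | h3
      · exact hgi0 h3
      · obtain ⟨j, hj, hj'⟩ := Finset.prod_eq_zero_iff.1 h3
        have h4 : (i0 : ℝ) = (j : ℝ) := by
          have := sub_eq_zero.1 hj'
          exact_mod_cast this
        exact (Finset.mem_erase.1 hj).1 (Subtype.ext h4.symm)
    refine ⟨P.roots.toFinset, fun c hc => ?_⟩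
    rw [Multiset.mem_toFinset, Polynomial.mem_roots hP, Polynomial.IsRoot]
    show Polynomial.eval _ (∑ i ∈ S, Polynomial.C (g i) *
      ∏ j ∈ S.erase i, (Polynomial.X - Polynomial.C (((j : ℝ) : ℂ)))) = _
    rw [Polynomial.eval_finsetSum]
    have h1 : ∀ i ∈ S, Polynomial.eval (c s) (Polynomial.C (g i) *
        ∏ j ∈ S.erase i, (Polynomial.X - Polynomial.C (((j : ℝ) : ℂ)))) =
        (∏ j ∈ S, (c s - ((j : ℝ) : ℂ))) * (g i * eval c (u i)) := by
      intro i hi
      rw [Polynomial.eval_mul, Polynomial.eval_C, Polynomial.eval_prod]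
      simp only [Polynomial.eval_sub, Polynomial.eval_X, Polynomial.eval_C]
      rw [← Finset.mul_prod_erase S _ hi]
      have := hu i c hc
      linear_combination (-(g i * ∏ j ∈ S.erase i, (c s - ((j : ℝ) : ℂ)))) * this
    rw [Finset.sum_congr rfl h1, ← Finset.mul_sum]
    have h2 := congrArg (eval c) hg
    rw [map_sum, map_zero] at h2
    simp only [smul_eval] at h2
    rw [h2, mul_zero]
  choose R hR using key
  refine (Set.Finite.pi' fun s => (R s).finite_toSet).subset ?_
  intro c hc s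
  exact hR s c hc

end Pool.Agent.L5helper13.KM
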