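import Pool.Agent.L5helper13.TQ.Defs

set_option autoImplicit false

namespace Pool.Agent.L5helper13.TQ

open MvPolynomial

/-- TQ2 -/
theorem AA_mul (k : Type) [Field k] (d : ℕ) (f g : (Fin d → kˣ) → k) (hf : f ∈ AA k d)
    (hg : g ∈ AA k d) : (fun t => f t * g t) ∈ AA k d := by
  refine Submodule.span_induction (p := fun f _ => (fun t => f t * g t) ∈ AA k d) ?_ ?_ ?_ ?_ hf
  · rintro _ ⟨χ, rfl⟩
    refine Submodule.span_induction
      (p := fun g _ => (fun t => χ t * g t) ∈ AA k d) ?_ ?_ ?_ ?_ hg
    · rintro _ ⟨χ', rfl⟩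
      refine Submodule.subset_span ⟨χ * χ', ?_⟩
      funext t
      simp
    · have : (fun t => χ t * (0 : (Fin d → kˣ) → k) t) = 0 := by
        funext t; simp
      rw [this]; exact Submodule.zero_mem _
    · intro x y _ _ hx hy
      have : (fun t => χ t * (x + y) t) =
          (fun t => χ t * x t) + fun t => χ t * y t := by
        funext t; simp [mul_add]
      rw [this]; exact Submodule.add_mem _ hx hy
    · intro a x _ hx
      have : (fun t => χ t * (a • x) t) = a • fun t => χ t * x t := by
        funext t; simp; ring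
      rw [this]; exact Submodule.smul_mem _ _ hx
  · have : (fun t => (0 : (Fin d → kˣ) → k) t * g t) = 0 := by
      funext t; simp
    rw [this]; exact Submodule.zero_mem _
  · intro x y _ _ hx hy
    have : (fun t => (x + y) t * g t) = (fun t => x t * g t) + fun t => y t * g t := by
      funext t; simp [add_mul]
    rw [this]; exact Submodule.add_mem _ hx hy
  · intro a x _ hx
    have : (fun t => (a • x) t * g t) = a • fun t => x t * g t := by
      funext t; simp; ring
    rw [this]; exact Submodule.smul_mem _ _ hx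

theorem AA_inv (k : Type) [Field k] (d : ℕ) (f : (Fin d → kˣ) → k) (hf : f ∈ AA k d) :
    (fun t => f t⁻¹) ∈ AA k d := by
  refine Submodule.span_induction (p := fun f _ => (fun t => f t⁻¹) ∈ AA k d) ?_ ?_ ?_ ?_ hf
  · rintro _ ⟨χ, rfl⟩
    exact Submodule.subset_span ⟨χ.comp (invMonoidHom : (Fin d → kˣ) →* (Fin d → kˣ)), rfl⟩
  · have : (fun t => (0 : (Fin d → kˣ) → k) t⁻¹) = 0 := by
      funext t; simp
    rw [this]; exact Submodule.zero_mem _
  · intro x y _ _ hx hy
    exact Submodule.add_mem _ hx hy
  · intro a x _ hx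
    exact Submodule.smul_mem _ a hx

end Pool.Agent.L5helper13.TQ
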