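import Pool.Agent.TH571.J141

/-!
Reparametrisation by arc length of a rectifiable path on a general interval `[a, b]`.
(Adapted from `Pool.Agent.TH571.J141`, where the interval is `[0, 1]`.)
-/

set_option autoImplicit false

open MeasureTheory Set Filter Topology Metric
open scoped ENNReal NNReal

namespace Pool.Agent.L5helper75.PolarCurve

open Pool.Agent.TH221

variable {n : ℕ} {c : ℝ → Eu n} {a b : ℝ}

/-- the length integral over a path on `[a, b]` -/
noncomputable def lineI (ρ : Eu n → ℝ≥0∞) (c : ℝ → Eu n) (a b : ℝ) : ℝ≥0∞ :=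
  ∫⁻ s in Icc 0 (eVariationOn c (Icc a b)).toReal, ρ (naturalParameterization c (Icc a b) a s)

lemma V_cont (hab : a ≤ b) (hc : ContinuousOn c (Icc a b)) (hv : eVariationOn c (Icc a b) ≠ ⊤) :
    ContinuousOn (variationOnFromTo c (Icc a b) a) (Icc a b) := by
  intro t ht
  have hbv : LocallyBoundedVariationOn c (Icc a b) :=
    BoundedVariationOn.locallyBoundedVariationOn hv
  have h0 : a ∈ Icc a b := left_mem_Icc.2 hab
  have hl := variationOnFromTo.tendsto_left (f := c) (l := c t) (s := Icc a b) h0 ht hbv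
    ((hc t ht).mono_left (nhdsWithin_mono _ inter_subset_left))
  have hr := variationOnFromTo.tendsto_right (f := c) (l := c t) (s := Icc a b) h0 ht hbv
    ((hc t ht).mono_left (nhdsWithin_mono _ inter_subset_left))
  rw [dist_self, sub_zero] at hl
  rw [dist_self, add_zero] at hr
  have hl' : ContinuousWithinAt (variationOnFromTo c (Icc a b) a) (Icc a b ∩ Iio t) t := hl
  have hr' : ContinuousWithinAt (variationOnFromTo c (Icc a b) a) (Icc a b ∩ Ioi t) t := hr
  have hm : ContinuousWithinAt (variationOnFromTo c (Icc a b) a) {t} t :=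
    continuousWithinAt_singleton
  refine ((hl'.union hm).union hr').mono fun x hx => ?_
  rcases lt_trichotomy x t with h | h | h
  · exact Or.inl (Or.inl ⟨hx, h⟩)
  · exact Or.inl (Or.inr h)
  · exact Or.inr ⟨hx, h⟩

lemma V_left : variationOnFromTo c (Icc a b) a a = 0 := variationOnFromTo.self _ _ _

lemma V_right (hab : a ≤ b) :
    variationOnFromTo c (Icc a b) a b = (eVariationOn c (Icc a b)).toReal := by
  rw [variationOnFromTo.eq_of_le _ _ hab, inter_self]

lemma V_mono (hab : a ≤ b) (hv : eVariationOn c (Icc a b) ≠ ⊤) :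
    MonotoneOn (variationOnFromTo c (Icc a b) a) (Icc a b) :=
  variationOnFromTo.monotoneOn (BoundedVariationOn.locallyBoundedVariationOn hv)
    (left_mem_Icc.2 hab)

lemma V_image (hab : a ≤ b) (hc : ContinuousOn c (Icc a b))
    (hv : eVariationOn c (Icc a b) ≠ ⊤) :
    variationOnFromTo c (Icc a b) a '' Icc a b = Icc 0 (eVariationOn c (Icc a b)).toReal := by
  apply Subset.antisymm
  · rintro _ ⟨t, ht, rfl⟩
    have h1 := V_mono hab hv (left_mem_Icc.2 hab) ht ht.1
    have h2 := V_mono hab hv ht (right_mem_Icc.2 hab) ht.2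
    rw [V_left] at h1
    rw [V_right hab] at h2
    exact ⟨h1, h2⟩
  · have := intermediate_value_Icc hab (V_cont hab hc hv)
    rwa [V_right hab, V_left] at this

lemma N_V (hab : a ≤ b) (hv : eVariationOn c (Icc a b) ≠ ⊤) {t : ℝ} (ht : t ∈ Icc a b) :
    naturalParameterization c (Icc a b) a (variationOnFromTo c (Icc a b) a t) = c t := by
  have := edist_naturalParameterization_eq_zero (f := c) (s := Icc a b)
    (BoundedVariationOn.locallyBoundedVariationOn hv) (a := a) (left_mem_Icc.2 hab) ht
  rwa [edist_eq_zero] at this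

lemma N_lip (hab : a ≤ b) (hc : ContinuousOn c (Icc a b)) (hv : eVariationOn c (Icc a b) ≠ ⊤) :
    LipschitzOnWith 1 (naturalParameterization c (Icc a b) a)
      (Icc 0 (eVariationOn c (Icc a b)).toReal) := by
  have hu := has_unit_speed_naturalParameterization c (s := Icc a b)
    (BoundedVariationOn.locallyBoundedVariationOn hv) (a := a) (left_mem_Icc.2 hab)
  rw [V_image hab hc hv] at hu
  have key : ∀ x ∈ Icc 0 (eVariationOn c (Icc a b)).toReal,
      ∀ y ∈ Icc 0 (eVariationOn c (Icc a b)).toReal, x ≤ y →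
      edist (naturalParameterization c (Icc a b) a x) (naturalParameterization c (Icc a b) a y)
        ≤ edist x y := by
    intro x hx y hy hxy
    have h1 := hu hx hy
    have h2 := eVariationOn.edist_le (naturalParameterization c (Icc a b) a)
      (s := Icc 0 (eVariationOn c (Icc a b)).toReal ∩ Icc x y)
      ⟨hx, le_rfl, hxy⟩ ⟨hy, hxy, le_rfl⟩
    rw [h1] at h2
    refine h2.trans ?_
    rw [edist_comm, edist_dist, Real.dist_eq, abs_of_nonneg (sub_nonneg.2 hxy)]
    simp
  intro x hx y hy
  rw [ENNReal.coe_one, one_mul]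
  rcases le_total x y with h | h
  · exact key x hx y hy h
  · rw [edist_comm, edist_comm x y]
    exact key y hy x hx h

theorem bridge_to_crv (hab : a ≤ b) (hc : ContinuousOn c (Icc a b))
    (hv : eVariationOn c (Icc a b) ≠ ⊤) :
    ∃ (γ : ℝ → Eu n) (ℓ : ℝ), LipschitzWith 1 γ ∧ 0 ≤ ℓ ∧ γ 0 = c a ∧ γ ℓ = c b ∧
      ∀ ρ : Eu n → ℝ≥0∞, lineI ρ c a b = cost ρ γ 0 ℓ := by
  set T := (eVariationOn c (Icc a b)).toReal with hT
  have hT0 : 0 ≤ T := ENNReal.toReal_nonneg
  set γ : ℝ → Eu n := fun s => naturalParameterization c (Icc a b) a (projIcc 0 T hT0 s) with hγ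
  have hγN : ∀ s ∈ Icc 0 T, γ s = naturalParameterization c (Icc a b) a s := by
    intro s hs
    simp only [hγ, projIcc_of_mem hT0 hs]
  have hV0 := V_left (c := c) (a := a) (b := b)
  have hV1 := V_right (c := c) hab
  refine ⟨γ, T, ?_, hT0, ?_, ?_, ?_⟩
  · intro s t
    have h1 := N_lip hab hc hv (projIcc 0 T hT0 s).2 (projIcc 0 T hT0 t).2
    have h2 := LipschitzWith.projIcc hT0 s t
    rw [ENNReal.coe_one, one_mul] at h1 h2 ⊢
    exact h1.trans h2
  · rw [hγN 0 ⟨le_rfl, hT0⟩]
    have := N_V hab hv (c := c) (left_mem_Icc.2 hab)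
    rwa [hV0] at this
  · rw [hγN T ⟨hT0, le_rfl⟩]
    have := N_V hab hv (c := c) (right_mem_Icc.2 hab)
    rwa [hV1] at this
  · intro ρ
    unfold lineI cost
    refine setLIntegral_congr_fun measurableSet_Icc fun s hs => ?_
    simp only [hγN s hs]

end Pool.Agent.L5helper75.PolarCurve
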