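import Pool.Agent.L5helper75.PolarPot

/-!
The polarization inequality for the modulus of the curves joining two compact sets, in terms of
`1`-Lipschitz curves.
-/

set_option autoImplicit false

open MeasureTheory Set Filter Topology Metric
open scoped ENNReal NNReal ContDiff

namespace Pool.Agent.L5helper75.PolarPot

open Pool.Agent.TH221

variable {n : ℕ}

/-- the Dirichlet energy density -/
noncomputable def en (v : Eu n → ℝ) (x : Eu n) : ℝ≥0∞ := (ENNReal.ofReal ‖fderiv ℝ v x‖) ^ n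

lemma en_meas (v : Eu n → ℝ) : Measurable (en v) :=
  ((measurable_fderiv ℝ v).norm.ennreal_ofReal).pow_const n

lemma hyper_null (i : Fin n) : ∀ᵐ x ∂(volume : Measure (Eu n)), x i ≠ 0 := by
  rw [ae_iff]
  have h : {x : Eu n | ¬ (x i ≠ 0)} =
      ((LinearMap.ker (EuclideanSpace.proj i : Eu n →L[ℝ] ℝ).toLinearMap : Submodule ℝ (Eu n)) :
        Set (Eu n)) := by
    ext x
    simp
  rw [h]
  refine Measure.addHaar_submodule _ _ ?_
  intro htop
  have hx : (EuclideanSpace.single i (1:ℝ) : Eu n) ∈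
      (LinearMap.ker (EuclideanSpace.proj i : Eu n →L[ℝ] ℝ).toLinearMap) := by
    rw [htop]; exact Submodule.mem_top
  simp at hx

lemma pol_refl {i : Fin n} {v : Eu n → ℝ} {y : Eu n} (h : 0 < y i) :
    pol i v (refl i y) = min (v y) (v (refl i y)) := by
  rw [pol_of_nonpos (by simp [h.le]), refl_refl, min_comm]

lemma pol_refl' {i : Fin n} {v : Eu n → ℝ} {y : Eu n} (h : y i < 0) :
    pol i v (refl i y) = max (v y) (v (refl i y)) := by
  rw [pol_of_nonneg (by simp [h.le]), refl_refl, max_comm]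

lemma en_congr {f g : Eu n → ℝ} {x : Eu n} (h : ‖fderiv ℝ f x‖ = ‖fderiv ℝ g x‖) :
    en f x = en g x := by
  rw [en, en, h]

lemma en_refl (i : Fin n) {w : Eu n → ℝ} {x : Eu n} (hw : DifferentiableAt ℝ w (refl i x)) :
    en w (refl i x) = en (fun y => w (refl i y)) x := by
  rw [en, en, norm_fderiv_comp_refl i hw]

lemma diff_comp_refl (i : Fin n) {w : Eu n → ℝ} {x : Eu n}
    (hw : DifferentiableAt ℝ w (refl i x)) : DifferentiableAt ℝ (fun y => w (refl i y)) x := by
  have h1 : (fun y => w (refl i y)) = w ∘ (reflE i : Eu n → Eu n) := by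
    funext y; simp [reflE_apply]
  rw [h1]
  refine DifferentiableAt.comp x ?_ (reflE i).differentiableAt
  rwa [reflE_apply]

lemma en_pol_ae {i : Fin n} {v : Eu n → ℝ}
    (h : ∀ z, ∃ r > 0, ∃ C : ℝ≥0, LipschitzOnWith C v (ball z r)) :
    ∀ᵐ x ∂(volume : Measure (Eu n)), en (pol i v) x + en (pol i v) (refl i x) =
      en v x + en v (refl i x) := by
  have hv := ae_diff h
  have hp := ae_diff (pol_locLip (i := i) h)
  have hv' := (refl_mp i).quasiMeasurePreserving.ae hv
  have hp' := (refl_mp i).quasiMeasurePreserving.ae hp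
  filter_upwards [hv, hp, hv', hp', hyper_null i] with x h1 h2 h3 h4 h5
  have hci : Continuous (fun w : Eu n => w i) := by fun_prop
  rw [en_refl i h4, en_refl i h3]
  have hg := diff_comp_refl i h3
  have hq := diff_comp_refl i h4
  rcases lt_or_gt_of_ne h5 with hx | hx
  · have hev : ∀ᶠ y in 𝓝 x, y i < 0 := hci.continuousAt.eventually_lt continuousAt_const hx
    have e1 : pol i v =ᶠ[𝓝 x] (fun y => min (v y) (v (refl i y))) := by
      filter_upwards [hev] with y hy using pol_of_nonpos hy.le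
    have e2 : (fun y => pol i v (refl i y)) =ᶠ[𝓝 x] (fun y => max (v y) (v (refl i y))) := by
      filter_upwards [hev] with y hy using pol_refl' hy
    have d1 := h2.congr_of_eventuallyEq e1.symm
    have d2 := hq.congr_of_eventuallyEq e2.symm
    have f1 := e1.fderiv_eq (𝕜 := ℝ)
    have f2 := e2.fderiv_eq (𝕜 := ℝ)
    rcases fderiv_max_min h1 hg d2 d1 with ⟨a, b⟩ | ⟨a, b⟩
    · rw [add_comm]
      exact congrArg₂ (· + ·) (en_congr (by rw [f2, a])) (en_congr (by rw [f1, b]))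
    · exact congrArg₂ (· + ·) (en_congr (by rw [f1, b])) (en_congr (by rw [f2, a]))
  · have hev : ∀ᶠ y in 𝓝 x, 0 < y i := continuousAt_const.eventually_lt hci.continuousAt hx
    have e1 : pol i v =ᶠ[𝓝 x] (fun y => max (v y) (v (refl i y))) := by
      filter_upwards [hev] with y hy using pol_of_nonneg hy.le
    have e2 : (fun y => pol i v (refl i y)) =ᶠ[𝓝 x] (fun y => min (v y) (v (refl i y))) := by
      filter_upwards [hev] with y hy using pol_refl hy
    have d1 := h2.congr_of_eventuallyEq e1.symm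
    have d2 := hq.congr_of_eventuallyEq e2.symm
    have f1 := e1.fderiv_eq (𝕜 := ℝ)
    have f2 := e2.fderiv_eq (𝕜 := ℝ)
    rcases fderiv_max_min h1 hg d1 d2 with ⟨a, b⟩ | ⟨a, b⟩
    · exact congrArg₂ (· + ·) (en_congr (by rw [f1, a])) (en_congr (by rw [f2, b]))
    · rw [add_comm]
      exact congrArg₂ (· + ·) (en_congr (by rw [f2, b])) (en_congr (by rw [f1, a]))

theorem lintegral_en_pol {i : Fin n} {v : Eu n → ℝ}
    (h : ∀ z, ∃ r > 0, ∃ C : ℝ≥0, LipschitzOnWith C v (ball z r)) :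
    ∫⁻ x, en (pol i v) x = ∫⁻ x, en v x := by
  have key : ∀ w : Eu n → ℝ, ∫⁻ x, (en w x + en w (refl i x)) = 2 * ∫⁻ x, en w x := by
    intro w
    rw [lintegral_add_left (en_meas w), (refl_mp i).lintegral_comp (en_meas w), two_mul]
  have h1 : ∫⁻ x, (en (pol i v) x + en (pol i v) (refl i x)) =
      ∫⁻ x, (en v x + en v (refl i x)) := lintegral_congr_ae (en_pol_ae h)
  rw [key, key] at h1
  exact (ENNReal.mul_right_inj two_ne_zero ENNReal.ofNat_ne_top).1 h1

/-- truncation -/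
noncomputable def clamp (t : ℝ) (w : Eu n → ℝ) (x : Eu n) : ℝ := max 0 (min (w x) t)

lemma clamp_dist (t : ℝ) (w : Eu n → ℝ) (x y : Eu n) :
    |clamp t w x - clamp t w y| ≤ |w x - w y| := by
  unfold clamp
  refine (abs_max_sub_max_le_max _ _ _ _).trans ?_
  rw [sub_self, abs_zero]
  refine max_le (abs_nonneg _) ?_
  refine (abs_min_sub_min_le_max _ _ _ _).trans ?_
  rw [sub_self, abs_zero]
  exact max_le le_rfl (abs_nonneg _)

lemma clamp_locLip {t : ℝ} {w : Eu n → ℝ}
    (h : ∀ z, ∃ r > 0, ∃ C : ℝ≥0, LipschitzOnWith C w (ball z r)) :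
    ∀ z, ∃ r > 0, ∃ C : ℝ≥0, LipschitzOnWith C (clamp t w) (ball z r) := by
  intro z
  obtain ⟨r, hr, C, hC⟩ := h z
  refine ⟨r, hr, C, LipschitzOnWith.of_dist_le_mul fun x hx y hy => ?_⟩
  rw [Real.dist_eq]
  refine (clamp_dist t w x y).trans ?_
  have := hC.dist_le_mul x hx y hy
  rwa [Real.dist_eq] at this

lemma en_clamp_le {t : ℝ} (ht : 0 < t) {w : Eu n → ℝ} (hn : 1 ≤ n)
    (h : ∀ z, ∃ r > 0, ∃ C : ℝ≥0, LipschitzOnWith C w (ball z r)) :
    ∀ᵐ x ∂(volume : Measure (Eu n)), en (clamp t w) x ≤ en w x := by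
  have hw := ae_diff h
  filter_upwards [hw] with x h1
  have hc := h1.continuousAt
  have hzero : fderiv ℝ (clamp t w) x = 0 → en (clamp t w) x ≤ en w x := by
    intro h0
    rw [en, h0, norm_zero, ENNReal.ofReal_zero, zero_pow (by omega)]
    exact zero_le
  rcases lt_trichotomy (w x) 0 with h0 | h0 | h0
  · have hev : ∀ᶠ y in 𝓝 x, w y < 0 := hc.eventually_lt continuousAt_const h0
    have e1 : clamp t w =ᶠ[𝓝 x] (fun _ => (0:ℝ)) := by
      filter_upwards [hev] with y hy
      rw [clamp, max_eq_left ((min_le_left _ _).trans hy.le)]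
    refine hzero ?_
    rw [e1.fderiv_eq]
    simp
  · refine hzero (IsLocalMin.fderiv_eq_zero (Eventually.of_forall fun y => ?_))
    have : clamp t w x = 0 := by
      rw [clamp, h0, min_eq_left ht.le, max_self]
    rw [this]
    exact le_max_left _ _
  rcases lt_trichotomy (w x) t with h2 | h2 | h2
  · have hev : ∀ᶠ y in 𝓝 x, w y < t := hc.eventually_lt continuousAt_const h2
    have hev' : ∀ᶠ y in 𝓝 x, 0 < w y := continuousAt_const.eventually_lt hc h0
    have e1 : clamp t w =ᶠ[𝓝 x] w := by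
      filter_upwards [hev, hev'] with y hy hy'
      rw [clamp, min_eq_left hy.le, max_eq_right hy'.le]
    rw [en, en, e1.fderiv_eq]
  · refine hzero (IsLocalMax.fderiv_eq_zero (Eventually.of_forall fun y => ?_))
    have : clamp t w x = t := by
      rw [clamp, h2, min_self, max_eq_right ht.le]
    rw [this]
    exact max_le ht.le (min_le_right _ _)
  · have hev : ∀ᶠ y in 𝓝 x, t < w y := continuousAt_const.eventually_lt hc h2
    have e1 : clamp t w =ᶠ[𝓝 x] (fun _ => t) := by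
      filter_upwards [hev] with y hy
      rw [clamp, min_eq_right hy.le, max_eq_right ht.le]
    refine hzero ?_
    rw [e1.fderiv_eq]
    simp

/-- the main inequality in terms of `1`-Lipschitz curves -/
theorem polar_ineq (hn : 2 ≤ n) (i : Fin n) {E F : Set (Eu n)} (hE : IsCompact E)
    (hF : IsCompact F) (hne : E.Nonempty) (hE0 : ∀ x ∈ E, 0 ≤ x i) (hF0 : ∀ x ∈ F, x i ≤ 0)
    {ρ : Eu n → ℝ≥0∞} (hρ : Adm ∅ E (refl i '' F) ρ) :
    (⨅ (σ : Eu n → ℝ≥0∞) (_ : Adm ∅ E F σ), ∫⁻ x, σ x ^ n) ≤ ∫⁻ x, ρ x ^ n := by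
  have hn1 : 1 ≤ n := by omega
  by_cases hfin : ∫⁻ x, ρ x ^ n = ⊤
  · rw [hfin]; exact le_top
  have hρtop : nrm volume ρ ≠ ⊤ := nrm_ne_top hfin
  have hF' : IsCompact (refl i '' F) := hF.image (refl_cont i)
  have hstep : ∀ θ ∈ Ioo (0:ℝ) 1,
      (⨅ (σ : Eu n → ℝ≥0∞) (_ : Adm ∅ E F σ), ∫⁻ x, σ x ^ n) ≤
      (ENNReal.ofReal (1 - θ)⁻¹ *
        (ENNReal.ofReal ((1 + θ) / (1 - θ)) * nrm volume ρ + ENNReal.ofReal θ)) ^ n := by
    intro θ hθ
    obtain ⟨v, hv, hvc, hv1, hv2, hloc, hnorm⟩ := exists_potential hn (isClosed_empty)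
      (measure_empty) hE hF' hne hρ.1 hfin hρ.2 hθ.1 hθ.2
    have ht : 0 < 1 - θ := by linarith [hθ.2]
    have hloc' : ∀ z, ∃ r > 0, ∃ C : ℝ≥0, LipschitzOnWith C v (ball z r) :=
      fun z => hloc z (notMem_empty z)
    set w : Eu n → ℝ := clamp (1 - θ) (pol i v) with hw
    have hwloc := clamp_locLip (t := 1 - θ) (pol_locLip (i := i) hloc')
    have hwc : Continuous w := locLip_continuous hwloc
    have hwsupp : HasCompactSupport w := by
      have hS : IsCompact (tsupport v ∪ refl i '' tsupport v) :=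
        IsCompact.union hvc (IsCompact.image hvc (refl_cont i))
      refine HasCompactSupport.intro hS fun x hx => ?_
      have hx1 : v x = 0 := image_eq_zero_of_notMem_tsupport fun hh => hx (Or.inl hh)
      have hx2 : v (refl i x) = 0 := image_eq_zero_of_notMem_tsupport fun hh =>
        hx (Or.inr ⟨refl i x, hh, refl_refl i x⟩)
      have : pol i v x = 0 := by
        unfold pol
        split_ifs <;> simp [hx1, hx2]
      rw [hw, clamp, this, min_eq_left ht.le, max_self]
    have hw1 : ∀ x ∈ E, w x = 1 - θ := by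
      intro x hx
      have h1 : 1 - θ ≤ pol i v x := by
        rw [pol_of_nonneg (hE0 x hx), hv1 x hx]
        exact le_max_left _ _
      rw [hw, clamp, min_eq_right h1, max_eq_right ht.le]
    have hw2 : ∀ x ∈ F, w x = 0 := by
      intro x hx
      have h1 : pol i v x ≤ 0 := by
        rw [pol_of_nonpos (hF0 x hx), hv2 _ (mem_image_of_mem _ hx)]
        exact min_le_right _ _
      rw [hw, clamp, max_eq_left ((min_le_left _ _).trans h1)]
    have hnorm' : nrm (volume.restrict (∅ : Set (Eu n))ᶜ)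
        (fun x => ENNReal.ofReal ‖fderiv ℝ w x‖) ≤
        ENNReal.ofReal ((1 + θ) / (1 - θ)) * nrm volume ρ + ENNReal.ofReal θ := by
      rw [compl_empty, Measure.restrict_univ] at hnorm ⊢
      refine le_trans ?_ hnorm
      rw [nrm_le_iff hn1, nrm_pow hn1]
      calc ∫⁻ x, (ENNReal.ofReal ‖fderiv ℝ w x‖) ^ n ≤ ∫⁻ x, en (pol i v) x :=
            lintegral_mono_ae (en_clamp_le ht hn1 (pol_locLip hloc'))
        _ = ∫⁻ x, en v x := lintegral_en_pol hloc'
    exact modulus_le_of_potential hn isClosed_empty measure_empty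
      (fun u _ hu => by rwa [compl_empty] at hu) hwc hwsupp ht hw1 hw2
      (fun z _ => hwloc z) (by finiteness) hnorm'
  rw [← nrm_pow hn1]
  have hlim : Tendsto (fun θ : ℝ => (ENNReal.ofReal (1 - θ)⁻¹ *
      (ENNReal.ofReal ((1 + θ) / (1 - θ)) * nrm volume ρ + ENNReal.ofReal θ)) ^ n) (𝓝[>] 0)
      (𝓝 ((ENNReal.ofReal (1 - 0)⁻¹ *
      (ENNReal.ofReal ((1 + 0) / (1 - 0)) * nrm volume ρ + ENNReal.ofReal 0)) ^ n)) := by
    refine Tendsto.mono_left ?_ (nhdsWithin_le_nhds (s := Ioi (0:ℝ)))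
    have h1 : Tendsto (fun θ : ℝ => ENNReal.ofReal (1 - θ)⁻¹) (𝓝 0)
        (𝓝 (ENNReal.ofReal (1 - 0)⁻¹)) := by
      refine ENNReal.tendsto_ofReal ?_
      have : ContinuousAt (fun θ : ℝ => (1 - θ)⁻¹) 0 := by
        refine ContinuousAt.inv₀ (by fun_prop) (by norm_num)
      exact this
    have h2 : Tendsto (fun θ : ℝ => ENNReal.ofReal ((1 + θ) / (1 - θ))) (𝓝 0)
        (𝓝 (ENNReal.ofReal ((1 + 0) / (1 - 0)))) := by
      refine ENNReal.tendsto_ofReal ?_
      have : ContinuousAt (fun θ : ℝ => (1 + θ) / (1 - θ)) 0 := by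
        refine ContinuousAt.div (by fun_prop) (by fun_prop) (by norm_num)
      exact this
    have h3 : Tendsto (fun θ : ℝ => ENNReal.ofReal θ) (𝓝 0) (𝓝 (ENNReal.ofReal 0)) :=
      (ENNReal.continuous_ofReal.tendsto 0)
    have h4 := ((ENNReal.Tendsto.mul_const h2 (Or.inr hρtop)).add h3)
    have h5 := ENNReal.Tendsto.mul h1 (Or.inr (by finiteness)) h4 (Or.inr (by finiteness))
    have h6 := h5.ennrpow_const (n : ℝ)
    simpa only [ENNReal.rpow_natCast] using h6
  have hval : (ENNReal.ofReal (1 - 0)⁻¹ *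
      (ENNReal.ofReal ((1 + 0) / (1 - 0)) * nrm volume ρ + ENNReal.ofReal 0)) ^ n =
      nrm volume ρ ^ n := by
    simp
  rw [hval] at hlim
  refine ge_of_tendsto hlim ?_
  have : Ioo (0:ℝ) 1 ∈ 𝓝[>] (0:ℝ) := Ioo_mem_nhdsGT one_pos
  filter_upwards [this] with θ hθ using hstep θ hθ

end Pool.Agent.L5helper75.PolarPot
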