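import Pool.Agent.TH221.PartA

/-!
Polarization of a locally Lipschitz function with respect to a coordinate hyperplane.
-/

set_option autoImplicit false

open MeasureTheory Set Filter Topology Metric
open scoped ENNReal NNReal ContDiff

namespace Pool.Agent.L5helper75.PolarPot

open Pool.Agent.TH221

variable {n : ℕ}

/-- the reflection in the hyperplane `x i = 0` -/
def refl (i : Fin n) (x : Eu n) : Eu n := WithLp.toLp 2 (fun j => if j = i then -x j else x j)

@[simp] lemma refl_apply (i j : Fin n) (x : Eu n) :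
    refl i x j = if j = i then -x j else x j := rfl

lemma refl_refl (i : Fin n) (x : Eu n) : refl i (refl i x) = x := by
  ext j
  by_cases h : j = i <;> simp [h]

lemma refl_eq_self {i : Fin n} {x : Eu n} (h : x i = 0) : refl i x = x := by
  ext j
  by_cases hj : j = i
  · subst hj; simp [h]
  · simp [hj]

/-- the reflection as a linear isometry -/
noncomputable def reflE (i : Fin n) : Eu n ≃ₗᵢ[ℝ] Eu n :=
  LinearIsometryEquiv.piLpCongrRight 2
    (fun j => if j = i then LinearIsometryEquiv.neg ℝ else LinearIsometryEquiv.refl ℝ ℝ)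

lemma reflE_apply (i : Fin n) (x : Eu n) : reflE i x = refl i x := by
  ext j
  simp only [reflE, LinearIsometryEquiv.piLpCongrRight_apply, refl_apply]
  by_cases hj : j = i <;> simp [hj]

lemma refl_eq (i : Fin n) : refl i = reflE i := by
  funext x; exact (reflE_apply i x).symm

lemma refl_mp (i : Fin n) : MeasurePreserving (refl i) (volume : Measure (Eu n)) volume := by
  rw [refl_eq]
  exact (reflE i).measurePreserving

lemma refl_cont (i : Fin n) : Continuous (refl i) := by
  rw [refl_eq]; exact (reflE i).continuous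

lemma refl_dist (i : Fin n) (x y : Eu n) : dist (refl i x) (refl i y) = dist x y := by
  rw [refl_eq]; exact (reflE i).dist_map x y

/-- polarization -/
noncomputable def pol (i : Fin n) (v : Eu n → ℝ) (x : Eu n) : ℝ :=
  if 0 ≤ x i then max (v x) (v (refl i x)) else min (v x) (v (refl i x))

lemma pol_of_nonneg {i : Fin n} {v : Eu n → ℝ} {x : Eu n} (h : 0 ≤ x i) :
    pol i v x = max (v x) (v (refl i x)) := by rw [pol, if_pos h]

lemma pol_of_nonpos {i : Fin n} {v : Eu n → ℝ} {x : Eu n} (h : x i ≤ 0) :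
    pol i v x = min (v x) (v (refl i x)) := by
  rcases h.lt_or_eq with h | h
  · rw [pol, if_neg (not_le.2 h)]
  · rw [pol, if_pos h.ge, refl_eq_self h, max_self, min_self]

/-- local Lipschitz property of the polarization -/
lemma pol_lip {i : Fin n} {v : Eu n → ℝ} {z : Eu n} {r : ℝ} {C : ℝ≥0}
    (h1 : LipschitzOnWith C v (ball z r)) (h2 : LipschitzOnWith C v (ball (refl i z) r)) :
    LipschitzOnWith C (pol i v) (ball z r) := by
  have hr : ∀ x ∈ ball z r, refl i x ∈ ball (refl i z) r := by
    intro x hx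
    rw [mem_ball, refl_dist]
    exact hx
  have hA : ∀ x ∈ ball z r, ∀ y ∈ ball z r, |v x - v y| ≤ C * dist x y := by
    intro x hx y hy
    have := h1.dist_le_mul x hx y hy
    rwa [Real.dist_eq] at this
  have hB : ∀ x ∈ ball z r, ∀ y ∈ ball z r, |v (refl i x) - v (refl i y)| ≤ C * dist x y := by
    intro x hx y hy
    have := h2.dist_le_mul _ (hr x hx) _ (hr y hy)
    rwa [Real.dist_eq, refl_dist] at this
  -- same side
  have hP : ∀ x ∈ ball z r, ∀ y ∈ ball z r, 0 ≤ x i → 0 ≤ y i →
      |pol i v x - pol i v y| ≤ C * dist x y := by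
    intro x hx y hy hxi hyi
    rw [pol_of_nonneg hxi, pol_of_nonneg hyi]
    exact (abs_max_sub_max_le_max _ _ _ _).trans (max_le (hA x hx y hy) (hB x hx y hy))
  have hN : ∀ x ∈ ball z r, ∀ y ∈ ball z r, x i ≤ 0 → y i ≤ 0 →
      |pol i v x - pol i v y| ≤ C * dist x y := by
    intro x hx y hy hxi hyi
    rw [pol_of_nonpos hxi, pol_of_nonpos hyi]
    exact (abs_min_sub_min_le_max _ _ _ _).trans (max_le (hA x hx y hy) (hB x hx y hy))
  have hX : ∀ x ∈ ball z r, ∀ y ∈ ball z r, 0 ≤ x i → y i ≤ 0 →
      |pol i v x - pol i v y| ≤ C * dist x y := by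
    intro x hx y hy hxi hyi
    -- the point of the segment on the hyperplane
    have hcont : ContinuousOn (fun s : ℝ => (AffineMap.lineMap x y s : Eu n) i) (Icc 0 1) := by
      have h1 : Continuous (fun s : ℝ => (AffineMap.lineMap x y s : Eu n)) :=
        AffineMap.lineMap_continuous
      have h2 : Continuous (fun w : Eu n => w i) := by fun_prop
      exact (h2.comp h1).continuousOn
    have hivt := intermediate_value_Icc' (zero_le_one (α := ℝ)) hcont
    have h0 : (0:ℝ) ∈ Icc ((AffineMap.lineMap x y (1:ℝ) : Eu n) i)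
        ((AffineMap.lineMap x y (0:ℝ) : Eu n) i) := by
      simp only [AffineMap.lineMap_apply_one, AffineMap.lineMap_apply_zero]
      exact ⟨hyi, hxi⟩
    obtain ⟨s, hs, hs0⟩ := hivt h0
    set p : Eu n := AffineMap.lineMap x y s with hp
    have hpb : p ∈ ball z r := by
      have hconv : Convex ℝ (ball z r) := convex_ball z r
      exact hconv.segment_subset hx hy (by
        rw [segment_eq_image_lineMap]; exact ⟨s, hs, rfl⟩)
    have hd : dist x p + dist p y = dist x y := by
      have h1 : dist x p = s * dist x y := by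
        rw [hp, dist_left_lineMap, Real.norm_eq_abs, abs_of_nonneg hs.1]
      have h2 : dist p y = (1 - s) * dist x y := by
        rw [hp, dist_lineMap_right, Real.norm_eq_abs, abs_of_nonneg (by linarith [hs.2])]
      rw [h1, h2]; ring
    have e1 := hP x hx p hpb hxi hs0.ge
    have e2 := hN p hpb y hy hs0.le hyi
    calc |pol i v x - pol i v y| ≤ |pol i v x - pol i v p| + |pol i v p - pol i v y| :=
          abs_sub_le _ _ _
      _ ≤ C * dist x p + C * dist p y := add_le_add e1 e2
      _ = C * dist x y := by rw [← mul_add, hd]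
  refine LipschitzOnWith.of_dist_le_mul fun x hx y hy => ?_
  rw [Real.dist_eq]
  rcases le_total 0 (x i) with hxi | hxi <;> rcases le_total 0 (y i) with hyi | hyi
  · exact hP x hx y hy hxi hyi
  · exact hX x hx y hy hxi hyi
  · rw [abs_sub_comm, dist_comm]
    exact hX y hy x hx hyi hxi
  · exact hN x hx y hy hxi hyi

lemma pol_locLip {i : Fin n} {v : Eu n → ℝ}
    (h : ∀ z, ∃ r > 0, ∃ C : ℝ≥0, LipschitzOnWith C v (ball z r)) :
    ∀ z, ∃ r > 0, ∃ C : ℝ≥0, LipschitzOnWith C (pol i v) (ball z r) := by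
  intro z
  obtain ⟨r₁, hr₁, C₁, h₁⟩ := h z
  obtain ⟨r₂, hr₂, C₂, h₂⟩ := h (refl i z)
  refine ⟨min r₁ r₂, lt_min hr₁ hr₂, max C₁ C₂, pol_lip ?_ ?_⟩
  · exact (h₁.mono (ball_subset_ball (min_le_left _ _))).weaken (le_max_left _ _)
  · exact (h₂.mono (ball_subset_ball (min_le_right _ _))).weaken (le_max_right _ _)

lemma locLip_continuous {v : Eu n → ℝ}
    (h : ∀ z, ∃ r > 0, ∃ C : ℝ≥0, LipschitzOnWith C v (ball z r)) : Continuous v := by
  rw [continuous_iff_continuousAt]
  intro z
  obtain ⟨r, hr, C, hC⟩ := h z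
  exact (hC.continuousOn.continuousAt (ball_mem_nhds z hr))

/-- Rademacher -/
lemma ae_diff {v : Eu n → ℝ}
    (h : ∀ z, ∃ r > 0, ∃ C : ℝ≥0, LipschitzOnWith C v (ball z r)) :
    ∀ᵐ x ∂(volume : Measure (Eu n)), DifferentiableAt ℝ v x := by
  have key : ∀ z : Eu n, ∃ U ∈ 𝓝 z, ∀ᵐ x ∂(volume : Measure (Eu n)), x ∈ U →
      DifferentiableAt ℝ v x := by
    intro z
    obtain ⟨r, hr, C, hC⟩ := h z
    refine ⟨ball z r, ball_mem_nhds z hr, ?_⟩
    have := hC.ae_differentiableWithinAt_of_mem (μ := volume)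
    filter_upwards [this] with x hx hxm
    exact (hx hxm).differentiableAt (isOpen_ball.mem_nhds hxm)
  choose U hU hUd using key
  obtain ⟨s, hs, hsU⟩ := TopologicalSpace.countable_cover_nhds hU
  have : ∀ᵐ x ∂(volume : Measure (Eu n)), ∀ z ∈ s, x ∈ U z → DifferentiableAt ℝ v x :=
    (ae_ball_iff hs).2 fun z _ => hUd z
  filter_upwards [this] with x hx
  have hxu : x ∈ ⋃ z ∈ s, U z := by rw [hsU]; exact mem_univ x
  simp only [mem_iUnion] at hxu
  obtain ⟨z, hz, hxz⟩ := hxu
  exact hx z hz hxz

lemma fderiv_eq_of_le {f g : Eu n → ℝ} {x : Eu n} (hf : DifferentiableAt ℝ f x)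
    (hg : DifferentiableAt ℝ g x) (hle : ∀ᶠ y in 𝓝 x, f y ≤ g y) (heq : f x = g x) :
    fderiv ℝ f x = fderiv ℝ g x := by
  have hmin : IsLocalMin (fun y => g y - f y) x := by
    filter_upwards [hle] with y hy
    rw [heq, sub_self]
    exact sub_nonneg.2 hy
  have h0 := hmin.fderiv_eq_zero
  rw [fderiv_fun_sub hg hf, sub_eq_zero] at h0
  exact h0.symm

/-- derivative of maximum and minimum -/
lemma fderiv_max_min {f g : Eu n → ℝ} {x : Eu n} (hf : DifferentiableAt ℝ f x)
    (hg : DifferentiableAt ℝ g x) (hM : DifferentiableAt ℝ (fun y => max (f y) (g y)) x)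
    (hm : DifferentiableAt ℝ (fun y => min (f y) (g y)) x) :
    (fderiv ℝ (fun y => max (f y) (g y)) x = fderiv ℝ f x ∧
      fderiv ℝ (fun y => min (f y) (g y)) x = fderiv ℝ g x) ∨
    (fderiv ℝ (fun y => max (f y) (g y)) x = fderiv ℝ g x ∧
      fderiv ℝ (fun y => min (f y) (g y)) x = fderiv ℝ f x) := by
  have hfc := hf.continuousAt
  have hgc := hg.continuousAt
  rcases lt_trichotomy (f x) (g x) with h | h | h
  · right
    have hev : ∀ᶠ y in 𝓝 x, f y < g y := hfc.eventually_lt hgc h
    constructor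
    · refine Filter.EventuallyEq.fderiv_eq ?_
      filter_upwards [hev] with y hy using max_eq_right hy.le
    · refine Filter.EventuallyEq.fderiv_eq ?_
      filter_upwards [hev] with y hy using min_eq_left hy.le
  · left
    constructor
    · symm
      refine fderiv_eq_of_le hf hM (Eventually.of_forall fun y => le_max_left _ _) ?_
      rw [h, max_self]
    · refine fderiv_eq_of_le hm hg (Eventually.of_forall fun y => min_le_right _ _) ?_
      rw [h, min_self]
  · left
    have hev : ∀ᶠ y in 𝓝 x, g y < f y := hgc.eventually_lt hfc h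
    constructor
    · refine Filter.EventuallyEq.fderiv_eq ?_
      filter_upwards [hev] with y hy using max_eq_left hy.le
    · refine Filter.EventuallyEq.fderiv_eq ?_
      filter_upwards [hev] with y hy using min_eq_right hy.le

lemma norm_fderiv_comp_refl (i : Fin n) {w : Eu n → ℝ} {x : Eu n}
    (hw : DifferentiableAt ℝ w (refl i x)) :
    ‖fderiv ℝ (fun y => w (refl i y)) x‖ = ‖fderiv ℝ w (refl i x)‖ := by
  have h1 : (fun y => w (refl i y)) = w ∘ (reflE i : Eu n → Eu n) := by
    funext y; simp [reflE_apply]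
  rw [h1, fderiv_comp x (by rwa [reflE_apply]) (reflE i).differentiableAt, reflE_apply]
  have h2 : fderiv ℝ (reflE i : Eu n → Eu n) x = ((reflE i).toContinuousLinearEquiv :
      Eu n →L[ℝ] Eu n) := (reflE i).toContinuousLinearEquiv.fderiv
  rw [h2]
  apply le_antisymm
  · refine (ContinuousLinearMap.opNorm_comp_le _ _).trans ?_
    have h3 : ‖((reflE i).toContinuousLinearEquiv : Eu n →L[ℝ] Eu n)‖ ≤ 1 := by
      refine ContinuousLinearMap.opNorm_le_bound _ zero_le_one fun y => ?_
      rw [one_mul]
      exact ((reflE i).norm_map y).le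
    calc _ ≤ ‖fderiv ℝ w (refl i x)‖ * 1 := by gcongr
      _ = _ := mul_one _
  · refine ContinuousLinearMap.opNorm_le_bound _ (norm_nonneg _) fun y => ?_
    have h4 : fderiv ℝ w (refl i x) y = ((fderiv ℝ w (refl i x)).comp
        ((reflE i).toContinuousLinearEquiv : Eu n →L[ℝ] Eu n)) (refl i y) := by
      simp only [ContinuousLinearMap.coe_comp', Function.comp_apply]
      congr 1
      change y = reflE i (refl i y)
      rw [reflE_apply, refl_refl]
    rw [h4]
    refine (ContinuousLinearMap.le_opNorm _ _).trans ?_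
    have h5 : ‖refl i y‖ = ‖y‖ := by rw [← reflE_apply]; exact (reflE i).norm_map y
    rw [h5]

end Pool.Agent.L5helper75.PolarPot
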